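import Pool.Agent.helper5.IH.Spec

/-!
# Row ih:EXW: connected 4-regular graphs have Eulerian closed walks
-/

set_option autoImplicit false

namespace Pool.Agent.IH
open Finset CT SYM

private theorem EXW_pair {X : Type} [Finite X] (h : Nat.card X = 4) :
    ∃ g : X → X, (∀ x, g (g x) = x) ∧ ∀ x, g x ≠ x := by
  obtain e : X ≃ Fin 4 := Finite.equivFinOfCardEq h
  refine ⟨fun x => e.symm (Fin.rev (e x)), fun x => ?_, fun x hx => ?_⟩
  · show e.symm (Fin.rev (e (e.symm (Fin.rev (e x))))) = x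
    rw [e.apply_symm_apply, Fin.rev_rev, e.symm_apply_apply]
  · have hx' : e.symm (Fin.rev (e x)) = x := hx
    have h1 : Fin.rev (e x) = e x := by
      have h2 := congrArg e hx'
      rwa [e.apply_symm_apply] at h2
    have h3 : ∀ i : Fin 4, Fin.rev i ≠ i := by decide
    exact h3 _ h1

private theorem EXW_ts {V : Type} [Fintype V] (G : SimpleGraph V) (h : FourRegular G) :
    ∃ τ : G.Dart → G.Dart, IsTS τ := by
  classical
  choose g hg1 hg2 using fun u => EXW_pair (h u)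
  refine ⟨fun d => ⟨(d.fst, (g d.fst ⟨d.snd, d.adj⟩).1), (g d.fst ⟨d.snd, d.adj⟩).2⟩, fun d => ?_,
    fun d => rfl, fun d hd => ?_⟩
  · ext
    · rfl
    · show ((g d.fst (g d.fst ⟨d.snd, d.adj⟩)).1 : V) = d.snd
      rw [hg1]
  · have h1 : (g d.fst ⟨d.snd, d.adj⟩).1 = d.snd := congrArg (fun d' : G.Dart => d'.snd) hd
    exact hg2 d.fst ⟨d.snd, d.adj⟩ (Subtype.ext h1)

theorem EXW (hMIN : MIN_stmt) (hEUW : EUW_stmt) (hEWW : EWW_stmt) : EXW_stmt := by
  intro V _ _ G hG hc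
  obtain ⟨τ, hτ⟩ := EXW_ts G hG
  obtain ⟨τ', S, h1, h2, _⟩ := hMIN V G τ hG hc hτ
  obtain ⟨m, q, hq, _⟩ := hEUW V G τ' h1 h2
  exact hEWW V G m q hq

end Pool.Agent.IH
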